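import Pool.Agent.Q261.HalfSum

/-!
# Cao's question on the counts `N(p)` and `N-bar(p)`

The definitions (`cfVal`, `IsExpansion`, `M`, `Mbar`, `N`, `Nbar`) are in `Pool.Agent.Q261.RotDefs`.
-/

set_option autoImplicit false

namespace Pool.Agent.Results.MP_54f1ce_nt.CaoInequality

open Q261.Rot

/-- **Main result**: the expansion of `p / n` is unique, and `N-bar(p) ≥ N(p) ≥ 2` for every integer
`p > 3` with `p ≡ 3 mod 4`. -/
theorem result :
    (∀ p n : ℕ, 0 < n → n < p → ∃! l : List ℕ, IsExpansion p n l) ∧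
    ∀ p : ℕ, Odd p → 3 < p → p % 4 = 3 → N p ≤ Nbar p ∧ 2 ≤ N p :=
  ⟨fun p n h0 h1 => existsUnique_expansion n p h0 h1, fun p _ hp h4 => cao p hp h4⟩

end Pool.Agent.Results.MP_54f1ce_nt.CaoInequality
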